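import Pool.Agent.N912.LC.Out

/-!
All the factorisations `d e = A n^2 + B n + C` of the values of an arbitrary quadratic polynomial of
negative discriminant: joint equidistribution of the numbers of prime factors of `d` and `e` modulo
`k` at almost all scales, and the same for arbitrary completely additive functions with values in a
finite abelian group under a condition of aperiodicity.

The engine is in `Pool/Agent/N912/{ED,EP,LC,RC}` and in the files of the co-authors.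
-/

set_option autoImplicit false

namespace Pool.Agent.Results.MP_7169d5_nt.AllNegativeDiscriminants

open Finset Filter

open scoped Classical in
/-- the set of the positive integers `X` with `P X` has logarithmic density `0` -/
def LogNull (P : ℕ → Prop) : Prop :=
  Tendsto (fun Z : ℕ => (∑ X ∈ (Icc 1 Z).filter P, 1 / (X : ℝ)) / Real.log Z) atTop (nhds 0)

/-- the triples `(d, e, n)` of natural numbers with `d e = A n^2 + B n + C`, `n ≡ u`, `d ≡ r` and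
`e ≡ r'` modulo `q`, `s₁ X < d ≤ s₂ X`, `s₃ X < e ≤ s₄ X` -/
def Triples (A B C : ℤ) (q u r r' : ℕ) (s₁ s₂ s₃ s₄ : ℝ) (X : ℕ) : Set (ℕ × ℕ × ℕ) :=
  {y | (y.1 : ℤ) * y.2.1 = A * (y.2.2 : ℤ) ^ 2 + B * y.2.2 + C ∧
    (y.2.2 ≡ u [MOD q] ∧ y.1 ≡ r [MOD q] ∧ y.2.1 ≡ r' [MOD q]) ∧
    s₁ * X < (y.1 : ℝ) ∧ (y.1 : ℝ) ≤ s₂ * X ∧ s₃ * X < (y.2.1 : ℝ) ∧ (y.2.1 : ℝ) ≤ s₄ * X}

/-- the pairs of factors `(d, e)` have the property `P` with frequency `κ`: in all residue classes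
and all windows and for almost all `X`, the number of the triples `(d, e, n)` with `P d e` is `κ`
times the number of all triples, up to `o(X)` -/
def Equi (A B C : ℤ) (q u : ℕ) (P : ℕ → ℕ → Prop) (κ : ℝ) : Prop :=
  ∀ (r r' : ℕ) (s₁ s₂ s₃ s₄ : ℝ), 0 ≤ s₁ → s₁ < s₂ → 0 ≤ s₃ → s₃ < s₄ → ∀ ε : ℝ, 0 < ε →
    LogNull (fun X => ε * X <
      |(Set.ncard {y ∈ Triples A B C q u r r' s₁ s₂ s₃ s₄ X | P y.1 y.2.1} : ℝ) -
        κ * (Set.ncard (Triples A B C q u r r' s₁ s₂ s₃ s₄ X) : ℝ)|)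

/-- `T X ≥ X / (log X)^(log 2 + ε)` for almost all `X` (logarithmic density) and every `ε > 0`, and
`T N ≥ N^(1-δ)` for every `δ > 0` and all large `N` -/
def Many (T : ℕ → ℕ) : Prop :=
  (∀ ε : ℝ, 0 < ε → LogNull (fun X => (T X : ℝ) < X / Real.log X ^ (Real.log 2 + ε))) ∧
  ∀ δ : ℝ, 0 < δ → ∃ N₀ : ℕ, ∀ N : ℕ, N₀ ≤ N → (N : ℝ) ^ (1 - δ) ≤ (T N : ℝ)

/-- the number of the `n ≤ X`, `n ≡ u mod q`, for which `A n^2 + B n + C = d e` with `d, e ≤ X` and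
`P d e` -/
noncomputable def factored (A B C : ℤ) (q u : ℕ) (P : ℕ → ℕ → Prop) (X : ℕ) : ℕ :=
  Set.ncard {n : ℕ | n ≤ X ∧ n ≡ u [MOD q] ∧ ∃ d e : ℕ, d ≤ X ∧ e ≤ X ∧
    (d : ℤ) * e = A * (n : ℤ) ^ 2 + B * n + C ∧ P d e}

/-- the number of the `n ≤ X`, `n ≡ u mod q`, for which `A n^2 + B n + C` is a positive integer with
the property `P` -/
noncomputable def values (A B C : ℤ) (q u : ℕ) (P : ℕ → Prop) (X : ℕ) : ℕ :=
  Set.ncard {n : ℕ | n ≤ X ∧ n ≡ u [MOD q] ∧ ∃ m : ℕ, 1 ≤ m ∧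
    (m : ℤ) = A * (n : ℤ) ^ 2 + B * n + C ∧ P m}

/-- `g` is completely multiplicative on the positive integers and its values are `N`-th roots of
unity -/
def CMul (N : ℕ) (g : ℕ → ℂ) : Prop :=
  1 ≤ N ∧ (∀ m n : ℕ, m ≠ 0 → n ≠ 0 → g (m * n) = g m * g n) ∧ ∀ n : ℕ, n ≠ 0 → g n ^ N = 1

/-- `H` is completely additive on the positive integers -/
def CAdd {G : Type} [AddCommGroup G] (H : ℕ → G) : Prop :=
  ∀ m n : ℕ, m ≠ 0 → n ≠ 0 → H (m * n) = H m + H n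

open scoped Classical in
/-- `∑ h(x^2 + t x y + c y^2) = o(X)`, the sum over the pairs of integers `x ≡ u`, `y ≡ v` modulo
`M` with `1 ≤ x^2 + t x y + c y^2 ≤ X` (then `|x|, |y| ≤ 2 X`), for all `M`, `u`, `v` -/
def Aperiodic (t c : ℤ) (h : ℕ → ℂ) : Prop :=
  ∀ (M : ℕ) (u v : ℤ), 1 ≤ M → Tendsto (fun X : ℕ =>
    (∑ z ∈ (Icc (-(2 * (X : ℤ))) (2 * X) ×ˢ Icc (-(2 * (X : ℤ))) (2 * X)).filter
      (fun z : ℤ × ℤ => z.1 ≡ u [ZMOD M] ∧ z.2 ≡ v [ZMOD M] ∧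
        1 ≤ z.1 ^ 2 + t * z.1 * z.2 + c * z.2 ^ 2 ∧ z.1 ^ 2 + t * z.1 * z.2 + c * z.2 ^ 2 ≤ X),
      h (z.1 ^ 2 + t * z.1 * z.2 + c * z.2 ^ 2).toNat) / (X : ℂ)) atTop (nhds 0)

/-- the number of prime factors, with multiplicity -/
abbrev Om (n : ℕ) : ℕ := ArithmeticFunction.cardFactors n

section

open Pool.Agent.N912.LC Pool.Agent.N912.EP.W78EG
open Pool.Agent.W78.GA (Qd)

theorem cmn_of {N : ℕ} {g : ℕ → ℂ} (h : CMul N g) : CMN N g := ⟨h.1, h.2.1, h.2.2⟩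

theorem logNull_of {f : ℕ → ℝ} (hf : ∀ X, 0 ≤ f X)
    (hA : ∀ ε : ℝ, 0 < ε → ∃ N₀ : ℕ, ∀ N : ℕ, N₀ ≤ N →
      ∑ X ∈ Icc 1 N, 1 / (X : ℝ) ^ 2 * f X ≤ ε * Real.log N)
    (ε : ℝ) (hε : 0 < ε) : LogNull (fun X => ε * X < f X) := by
  have h := Pool.Agent.N490.LC.tt hf hA ε hε
  unfold LogNull
  convert h

theorem logNull_mono {P Q : ℕ → Prop} (h : ∀ X, P X → Q X) (hQ : LogNull Q) : LogNull P := by
  classical
  unfold LogNull at hQ ⊢
  refine squeeze_zero (fun Z => ?_) (fun Z => ?_) hQ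
  · exact div_nonneg (sum_nonneg fun X _ => by positivity) (Real.log_natCast_nonneg Z)
  · refine div_le_div_of_nonneg_right ?_ (Real.log_natCast_nonneg Z)
    refine sum_le_sum_of_subset_of_nonneg ?_ (fun X _ _ => by positivity)
    intro X hX
    rw [mem_filter] at hX ⊢
    exact ⟨hX.1, h X hX.2⟩

theorem many_mono {T T' : ℕ → ℕ} (h : ∀ X, T X ≤ T' X) (hT : Many T) : Many T' := by
  refine ⟨fun ε hε => logNull_mono (fun X hX => ?_) (hT.1 ε hε), fun δ hδ => ?_⟩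
  · exact lt_of_le_of_lt (by exact_mod_cast h X) hX
  · obtain ⟨N₀, hN₀⟩ := hT.2 δ hδ
    exact ⟨N₀, fun N hN => (hN₀ N hN).trans (by exact_mod_cast h N)⟩

theorem values_finite (A B C : ℤ) (q u : ℕ) (P : ℕ → Prop) (X : ℕ) :
    {n : ℕ | n ≤ X ∧ n ≡ u [MOD q] ∧ ∃ m : ℕ, 1 ≤ m ∧
      (m : ℤ) = A * (n : ℤ) ^ 2 + B * n + C ∧ P m}.Finite :=
  (Set.finite_Iic X).subset fun _ h => h.1

theorem disc_pos {A B C : ℤ} (hA : 0 < A) (hD : B ^ 2 < 4 * A * C) (n : ℤ) :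
    0 < A * n ^ 2 + B * n + C := by
  have h1 : 0 < 4 * A * (A * n ^ 2 + B * n + C) := by nlinarith [sq_nonneg (2 * A * n + B)]
  have h2 : (0 : ℤ) < 4 * A := by linarith
  exact (pos_iff_pos_of_mul_pos h1).1 h2

/-- from factorisations to values -/
theorem factored_le {A B C : ℤ} (hA : 0 < A) (hD : B ^ 2 < 4 * A * C) (q u : ℕ)
    {P : ℕ → ℕ → Prop} {Q : ℕ → Prop}
    (h : ∀ d e : ℕ, d ≠ 0 → e ≠ 0 → P d e → Q (d * e)) (X : ℕ) :
    factored A B C q u P X ≤ values A B C q u Q X := by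
  refine Set.ncard_le_ncard ?_ (values_finite A B C q u Q X)
  rintro n ⟨h1, h2, d, e, h3, h4, h5, h6⟩
  have h7 := disc_pos hA hD (n : ℤ)
  rw [← h5] at h7
  have h8 : 0 < d * e := by exact_mod_cast h7
  have hd : d ≠ 0 := fun h => by rw [h, zero_mul] at h8; exact lt_irrefl 0 h8
  have he : e ≠ 0 := fun h => by rw [h, mul_zero] at h8; exact lt_irrefl 0 h8
  exact ⟨h1, h2, d * e, h8, by rw [← h5]; push_cast; rfl, h d e hd he h6⟩

theorem triples_eq (A B C : ℤ) (q u r r' : ℕ) (s₁ s₂ s₃ s₄ : ℝ) (X : ℕ) :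
    Triples A B C q u r r' s₁ s₂ s₃ s₄ X = TR A B C q u r r' s₁ s₂ s₃ s₄ X := by
  ext y
  simp only [Triples, TR, TQ, Set.mem_ofPred_eq]
  tauto

variable {A B C t c : ℤ}

/-- the group version -/
theorem main_group (hA : 0 < A) (ht : t = 0 ∨ t = 1) (hc : t ^ 2 < 4 * c)
    (hdisc : B ^ 2 - 4 * A * C = t ^ 2 - 4 * c) {q : ℕ} (hq : 1 ≤ q) (u : ℕ)
    {G : Type} [AddCommGroup G] [Finite G] {H₁ H₂ : ℕ → G} (hH : Hyp t c H₁ H₂) (g : G) :
    Equi A B C q u (fun d e => H₁ d + H₂ e = g) (1 / Nat.card G) ∧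
      Many (factored A B C q u (fun d e => H₁ d + H₂ e = g)) := by
  refine ⟨fun r r' s₁ s₂ s₃ s₄ h1 h2 h3 h4 ε hε => ?_, ?_⟩
  · refine logNull_of (f := fun X : ℕ =>
      |(Set.ncard {y ∈ Triples A B C q u r r' s₁ s₂ s₃ s₄ X | H₁ y.1 + H₂ y.2.1 = g} : ℝ) -
        1 / Nat.card G * (Set.ncard (Triples A B C q u r r' s₁ s₂ s₃ s₄ X) : ℝ)|)
      (fun X => abs_nonneg _) (fun η hη => ?_) ε hε
    obtain ⟨N₀, hN₀⟩ := fingAll A B C t c hA ht hc hdisc G H₁ H₂ hH q u r r' g hq s₁ s₂ s₃ s₄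
      h1 h2 h3 h4 η hη
    refine ⟨N₀, fun N hN => le_trans (le_of_eq ?_) (hN₀ N hN)⟩
    refine sum_congr rfl fun X _ => ?_
    rw [triples_eq, mul_comm (1 / (Nat.card G : ℝ)), mul_one_div]
  · obtain ⟨h1, h2⟩ := finmgAll A B C t c hA ht hc hdisc G H₁ H₂ hH q u g hq
    refine ⟨fun ε hε => ?_, fun δ hδ => ?_⟩
    · have h := h1 ε hε
      have e : factored A B C q u (fun d e => H₁ d + H₂ e = g) = cG A B C q u H₁ H₂ g := rfl
      unfold LogNull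
      rw [e]
      convert h
    · obtain ⟨N₀, hN₀⟩ := h2 δ hδ
      exact ⟨N₀, fun N hN => hN₀ N hN⟩

/-- the multiplicative version -/
theorem main_mul (hA : 0 < A) (ht : t = 0 ∨ t = 1) (hc : t ^ 2 < 4 * c)
    (hdisc : B ^ 2 - 4 * A * C = t ^ 2 - 4 * c) {q : ℕ} (hq : 1 ≤ q) (u : ℕ)
    {N : ℕ} {g h : ℕ → ℂ} (hg : CMul N g) (hh : CMul N h) (hap : Aperiodic t c g ∨ Aperiodic t c h)
    (r r' : ℕ) (s₁ s₂ s₃ s₄ : ℝ) (h1 : 0 ≤ s₁) (h2 : s₁ < s₂) (h3 : 0 ≤ s₃) (h4 : s₃ < s₄)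
    (ε : ℝ) (hε : 0 < ε) :
    LogNull (fun X => ε * X <
      ‖∑ᶠ y ∈ Triples A B C q u r r' s₁ s₂ s₃ s₄ X, g y.1 * h y.2.1‖) := by
  classical
  refine logNull_of (f := fun X : ℕ =>
    ‖∑ᶠ y ∈ Triples A B C q u r r' s₁ s₂ s₃ s₄ X, g y.1 * h y.2.1‖)
    (fun X => norm_nonneg _) (fun η hη => ?_) ε hε
  have : NeZero q := ⟨by omega⟩
  obtain ⟨w, hw⟩ : ∃ w : ZMod q → ZMod q → ZMod q → ℂ, w = fun a b d =>
      if a = (u : ZMod q) ∧ b = (r : ZMod q) ∧ d = (r' : ZMod q) then 1 else 0 := ⟨_, rfl⟩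
  obtain ⟨N₀, hN₀⟩ := core2 A B C t c hA ht hc hdisc N g h (cmn_of hg) (cmn_of hh)
    (hap.imp (apd_of' ht hc (cmn_of hg)) (apd_of' ht hc (cmn_of hh))) q hq w s₁ s₂ s₃ s₄
    h1 h2 h3 h4 η hη
  refine ⟨N₀, fun M hM => le_trans (le_of_eq ?_) (hN₀ M hM)⟩
  refine sum_congr rfl fun X _ => ?_
  congr 2
  have hfin := Pool.Agent.N717.LC.TQ_finite (B := B) (C := C) hA s₁ s₂ s₃ s₄ (X : ℝ)
  have hsub : Triples A B C q u r r' s₁ s₂ s₃ s₄ X ⊆ TQ A B C s₁ s₂ s₃ s₄ X := by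
    rw [triples_eq]
    exact fun y hy => hy.1
  have hfin' := hfin.subset hsub
  rw [finsum_mem_eq_finite_toFinset_sum _ hfin, finsum_mem_eq_finite_toFinset_sum _ hfin']
  have e1 : hfin'.toFinset = hfin.toFinset.filter
      (fun y => y.2.2 ≡ u [MOD q] ∧ y.1 ≡ r [MOD q] ∧ y.2.1 ≡ r' [MOD q]) := by
    ext y
    simp only [Set.Finite.mem_toFinset, mem_filter, triples_eq]
    rfl
  rw [e1, sum_filter]
  refine sum_congr rfl fun y _ => ?_
  rw [hw]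
  simp only [ZMod.natCast_eq_natCast_iff]
  split_ifs
  · rw [one_mul]
  · rw [zero_mul]

end

/-- Let `f = A x^2 + B x + C` be a quadratic polynomial, `A > 0`, with negative discriminant
`B^2 - 4 A C = t^2 - 4 c`, `t = 0` or `1` (so `x^2 + t x y + c y^2` is the principal form of this
discriminant), `q ≥ 1` and `u` a residue class modulo `q`. Triples are the triples `(d, e, n)` with
`d e = f(n)`.

1. At least `c₁ X` triples have `d, e ≤ X`, `n ≡ u mod q`.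
2. For all `k ≥ 1`, `i`, `j`: the condition `Ω(d) ≡ i`, `Ω(e) ≡ j mod k` has the frequency `1/k^2`
among the triples with `n ≡ u mod q` (`Equi`: in all residue classes, all windows, almost all `X`);
many `n ≡ u mod q` have such a factorisation, and many `n ≡ u mod q` have `Ω(f(n)) ≡ i mod k`.
3. Let `g`, `h` be completely multiplicative functions with values in the `N`-th roots of unity, one
of which is aperiodic. Then the sum of `g(d) h(e)` over the triples is `o(X)` for almost all `X`.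
4. Let `G` be a finite abelian group, `H₁`, `H₂` completely additive functions on the positive
integers with values in `G`, such that for every nontrivial character `ψ` of `G` one of `ψ ∘ H₁`,
`ψ ∘ H₂` is aperiodic. Then for each `g ∈ G` the condition `H₁(d) + H₂(e) = g` has the frequency
`1/|G|`, and many `n ≡ u mod q` have a factorisation `f(n) = d e` with this property; if
`H₁ = H₂ = H`, then many `n ≡ u mod q` have `H(f(n)) = g`. -/
theorem result (A B C t c : ℤ) (hA : 0 < A) (ht : t = 0 ∨ t = 1) (hc : t ^ 2 < 4 * c)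
    (hdisc : B ^ 2 - 4 * A * C = t ^ 2 - 4 * c) (q u : ℕ) (hq : 1 ≤ q) :
    (∃ c₁ : ℝ, 0 < c₁ ∧ ∃ X₀ : ℕ, ∀ X : ℕ, X₀ ≤ X → c₁ * X ≤ (Set.ncard {y : ℕ × ℕ × ℕ |
      (y.1 : ℤ) * y.2.1 = A * (y.2.2 : ℤ) ^ 2 + B * y.2.2 + C ∧ y.1 ≤ X ∧ y.2.1 ≤ X ∧
        y.2.2 ≡ u [MOD q]} : ℝ)) ∧
    (∀ k i j : ℕ, 1 ≤ k →
      Equi A B C q u (fun d e => Om d ≡ i [MOD k] ∧ Om e ≡ j [MOD k]) (1 / (k : ℝ) ^ 2) ∧
      Many (factored A B C q u (fun d e => Om d ≡ i [MOD k] ∧ Om e ≡ j [MOD k])) ∧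
      Many (values A B C q u (fun m => Om m ≡ i [MOD k]))) ∧
    (∀ (N : ℕ) (g h : ℕ → ℂ), CMul N g → CMul N h → (Aperiodic t c g ∨ Aperiodic t c h) →
      ∀ (r r' : ℕ) (s₁ s₂ s₃ s₄ : ℝ), 0 ≤ s₁ → s₁ < s₂ → 0 ≤ s₃ → s₃ < s₄ → ∀ ε : ℝ, 0 < ε →
        LogNull (fun X => ε * X <
          ‖∑ᶠ y ∈ Triples A B C q u r r' s₁ s₂ s₃ s₄ X, g y.1 * h y.2.1‖)) ∧
    ∀ (G : Type) [AddCommGroup G] [Finite G] (H₁ H₂ : ℕ → G), CAdd H₁ → CAdd H₂ →
      (∀ ψ : AddChar G ℂ, ψ ≠ 1 →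
        Aperiodic t c (fun n => ψ (H₁ n)) ∨ Aperiodic t c (fun n => ψ (H₂ n))) → ∀ g : G,
      Equi A B C q u (fun d e => H₁ d + H₂ e = g) (1 / Nat.card G) ∧
      Many (factored A B C q u (fun d e => H₁ d + H₂ e = g)) ∧
      (H₁ = H₂ → Many (values A B C q u (fun m => H₁ m = g))) := by
  classical
  have hD : B ^ 2 < 4 * A * C := by linarith
  refine ⟨?_, ?_, ?_, ?_⟩
  · obtain ⟨c₁, hc₁, X₀, h⟩ := Pool.Agent.N912.LC.lc10All A B C hA hD q u hq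
    refine ⟨c₁, hc₁, X₀, fun X hX => (h X hX).trans (le_of_eq ?_)⟩
    congr 2
    ext y
    simp only [Pool.Agent.N912.LC.TQ, Set.mem_ofPred_eq, zero_mul, one_mul, Nat.cast_pos,
      Nat.cast_le]
    constructor
    · rintro ⟨⟨h1, h2, h3, h4, h5⟩, h6⟩
      exact ⟨h1, h3, h5, h6⟩
    · rintro ⟨h1, h3, h5, h6⟩
      have h7 := disc_pos hA hD (y.2.2 : ℤ)
      rw [← h1] at h7
      have h8 : 0 < y.1 * y.2.1 := by exact_mod_cast h7
      exact ⟨⟨h1, Nat.pos_of_mul_pos_right h8, h3, Nat.pos_of_mul_pos_left h8, h5⟩, h6⟩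
  · intro k i j hk
    have : NeZero k := ⟨by omega⟩
    have key : ∀ i j : ℕ,
        Equi A B C q u (fun d e => Om d ≡ i [MOD k] ∧ Om e ≡ j [MOD k]) (1 / (k : ℝ) ^ 2) ∧
        Many (factored A B C q u (fun d e => Om d ≡ i [MOD k] ∧ Om e ≡ j [MOD k])) := by
      intro i j
      have h1 := main_group hA ht hc hdisc hq u (Pool.Agent.N912.LC.hypO hc (k := k))
        ((i : ZMod k), (j : ZMod k))
      have e1 : (fun d e : ℕ => ((ArithmeticFunction.cardFactors d : ZMod k), (0 : ZMod k)) +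
          ((0 : ZMod k), (ArithmeticFunction.cardFactors e : ZMod k)) =
          ((i : ZMod k), (j : ZMod k))) = fun d e => Om d ≡ i [MOD k] ∧ Om e ≡ j [MOD k] := by
        funext d e
        rw [Prod.mk_add_mk, add_zero, zero_add, Prod.mk.injEq, ZMod.natCast_eq_natCast_iff,
          ZMod.natCast_eq_natCast_iff]
      have e2 : (1 : ℝ) / Nat.card (ZMod k × ZMod k) = 1 / (k : ℝ) ^ 2 := by
        rw [Nat.card_prod, Nat.card_zmod]
        push_cast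
        ring
      rw [e2] at h1
      simp only [e1] at h1
      exact h1
    refine ⟨(key i j).1, (key i j).2, ?_⟩
    refine many_mono (fun X => factored_le hA hD q u ?_ X) (key i 0).2
    intro d e hd he h
    show ArithmeticFunction.cardFactors (d * e) ≡ i [MOD k]
    rw [ArithmeticFunction.cardFactors_mul hd he]
    exact h.1.add h.2
  · intro N g h hg hh hap r r' s₁ s₂ s₃ s₄ h1 h2 h3 h4 ε hε
    exact main_mul hA ht hc hdisc hq u hg hh hap r r' s₁ s₂ s₃ s₄ h1 h2 h3 h4 ε hε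
  · intro G _ _ H₁ H₂ hH₁ hH₂ hap g
    have hyp : Pool.Agent.N912.LC.Hyp t c H₁ H₂ := by
      refine ⟨hH₁, hH₂, fun ψ hψ => ?_⟩
      exact (hap ψ hψ).imp
        (Pool.Agent.N912.LC.apd_of' ht hc (Pool.Agent.N912.LC.cmnG hH₁ ψ))
        (Pool.Agent.N912.LC.apd_of' ht hc (Pool.Agent.N912.LC.cmnG hH₂ ψ))
    obtain ⟨h1, h2⟩ := main_group hA ht hc hdisc hq u hyp g
    refine ⟨h1, h2, fun h12 => ?_⟩
    refine many_mono (fun X => factored_le hA hD q u ?_ X) h2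
    intro d e hd he h
    rw [hH₁ d e hd he, ← h, ← h12]

end Pool.Agent.Results.MP_7169d5_nt.AllNegativeDiscriminants
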