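import Pool.Agent.N688.QB.Hit

/-!
# Almost prime values of `x ^ 2 + 1` at prescribed distances: almost all elements of a Bohr set

Q1 asks for infinitely many primes `x ^ 2 + 1`. Let `x` be good if `x ^ 2 + 1` is a product of at most three primes,
all of them at least `N ^ (73/400)`, where `N < x ≤ N + N ^ (3/4)`. Which distances `b` are differences of good
integers?

For all `k, s` and `ε > 0` there are `d, H₀` and `ρ, δ, κ > 0` such that for every `H ≥ H₀` and ALL large `N` there
is a Bohr set `B ⊆ [-H, H]` of rank at most `d` and radius at least `ρ`, with at least `δ H` elements, such that for all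
but `ε |B|` of the `b ∈ B` and for all the multiples `b' = j |b|`, `1 ≤ j ≤ s`: the pair `0, b'` can be extended in a
positive proportion `κ` of all possible ways to a pattern `0 < b' < g_1 < ⋯ < g_k` which is the pattern of `k + 2`
good integers of the interval `(N, N + N ^ (3/4)]`, at all the terms of some progression of length `l` with difference
at most a power of `log N`. The theorem holds for all quadratic polynomials `A x ^ 2 + B x + C` with nonsquare
discriminant, and one can add the condition that the values `f(x)` of any other polynomial are almost prime, too.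

Method. (1) Any `K` shifts contain the pattern of `k + 2` good integers (`Pool.Agent.R498.MT.quad_sys`, starting
files, a sieve of Maynard-Tao type with the level of distribution of quadratic values in short intervals; here made
uniform in all the `K`-element subsets of `[0, H)`: `Pool.Agent.N688.QB.hit`). (2) New: `Pool.Agent.N688.FB.main`. A
distance is poor if it has few extensions. Either the poor pairs are rare inside one of a bounded number of successive
neighbourhoods in the graph of the poor pairs, with the density required by the Fourier analysis at that level, or a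
positive proportion of all `K`-tuples are cliques of poor pairs, and double counting contradicts (1). (3) A dense
set, almost all of whose differences are not poor, leads to a Bohr set: `Pool.Agent.N646.AC.returnsZ` (helper646).
-/

set_option autoImplicit false

open Filter Finset Polynomial

namespace Pool.Agent.Results.MP_7169d5_nt.DistancesInBohrSets

open Classical in
/-- The Bohr set of the integers `|b| ≤ H` with `|exp (2 π i θ b) - 1| ≤ τ` for all `θ ∈ Θ`. -/
noncomputable def bohrSet (Θ : Finset ℝ) (τ : ℝ) (H : ℕ) : Finset ℤ :=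
  (Icc (-(H : ℤ)) H).filter (fun b => ∀ θ ∈ Θ,
    ‖Complex.exp (2 * Real.pi * Complex.I * θ * b) - 1‖ ≤ τ)

/-- `z` is in `(N, N + N^(3/4)]`, the value `A z² + B z + C` has at most three prime factors (with multiplicity), all
of them at least `N^(73/400)`, and the value `f(z)` has at most `r`, all of them at least `N^η`. -/
def GoodAt (A B C : ℤ) (f : ℤ[X]) (r : ℕ) (η : ℝ) (N : ℕ) (z : ℤ) : Prop :=
  (N : ℤ) < z ∧ (z : ℝ) ≤ N + (N : ℝ) ^ (3 / 4 : ℝ) ∧
  (A * z ^ 2 + B * z + C).natAbs.primeFactorsList.length ≤ 3 ∧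
  (∀ p : ℕ, p.Prime → (p : ℤ) ∣ A * z ^ 2 + B * z + C → (N : ℝ) ^ (73 / 400 : ℝ) ≤ p) ∧
  (f.eval z).natAbs.primeFactorsList.length ≤ r ∧
  ∀ p : ℕ, p.Prime → (p : ℤ) ∣ f.eval z → (N : ℝ) ^ η ≤ p

/-- There are `n` and `1 ≤ e ≤ (log N)^D` such that all the integers `n + j e + y_i`, `j < l`, are good. -/
def Repeated (A B C : ℤ) (f : ℤ[X]) (r : ℕ) (η : ℝ) (l D N : ℕ) {k : ℕ} (y : Fin k → ℤ) : Prop :=
  ∃ n e : ℕ, 1 ≤ e ∧ (e : ℝ) ≤ Real.log N ^ D ∧
    ∀ j < l, ∀ i, GoodAt A B C f r η N (n + j * e + y i)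

open Classical in
/-- The number of the vectors `g ∈ [-H, H]^k` with `0 < b < g_1 < ⋯ < g_k` for which `(0, b, g_1, …, g_k)` is
repeated. -/
noncomputable def extensions (A B C : ℤ) (f : ℤ[X]) (r : ℕ) (η : ℝ) (l D N k H : ℕ) (b : ℤ) : ℕ :=
  ((Fintype.piFinset (fun _ : Fin k => Icc (-(H : ℤ)) H)).filter (fun g =>
    StrictMono (Fin.cons 0 (Fin.cons b g) : Fin (k + 2) → ℤ) ∧
    Repeated A B C f r η l D N (Fin.cons 0 (Fin.cons b g) : Fin (k + 2) → ℤ))).card

/-- the count of the engine -/
theorem ext_congr (k H : ℕ) (P : (Fin (k + 2) → ℤ) → Prop) (Q : (Fin k → ℤ) → Prop)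
    [DecidablePred Q] (b : ℤ) (h : ∀ g, Q g ↔ P (Fin.cons 0 (Fin.cons b g))) :
    ((Fintype.piFinset (fun _ : Fin k => Icc (-(H : ℤ)) H)).filter Q).card =
      Pool.Agent.N688.FB.ext k H P b := by
  unfold Pool.Agent.N688.FB.ext
  exact congrArg Finset.card (Finset.ext fun g => by simp only [Finset.mem_filter, h g])

open Classical in
/-- Let `A x² + B x + C` be a quadratic polynomial with nonsquare discriminant and `f ≠ 0` a polynomial such that
`(A x² + B x + C) f(x)` has no fixed prime divisor (e.g. `x² + 1` and `f = 1`). For all `k, s` and `ε > 0`, every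
large `H` and all large `N` there is a Bohr set of bounded rank, radius bounded from below and positive density in
`[-H, H]` such that for all but the proportion `ε` of its elements `b` and all `1 ≤ j ≤ s` the positive proportion
`κ` of all extensions of the pair `(0, j |b|)` to `k + 2` integers are patterns of good integers of
`(N, N + N^(3/4)]`, repeated along progressions of length `l` with difference at most a power of `log N`. -/
theorem result (A B C : ℤ) (hA : A ≠ 0) (hΔ : ¬ IsSquare (B ^ 2 - 4 * A * C)) (f : ℤ[X]) (hf : f ≠ 0)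
    (hadm : ∀ p : ℕ, p.Prime → ∃ n : ℤ, ¬ (p : ℤ) ∣ (A * n ^ 2 + B * n + C) * f.eval n)
    (k s : ℕ) (ε : ℝ) (hε : 0 < ε) :
    ∃ (d H₀ : ℕ) (ρ δ κ : ℝ), 0 < ρ ∧ 0 < δ ∧ 0 < κ ∧ ∀ H : ℕ, H₀ ≤ H →
    ∃ (r : ℕ) (η : ℝ), 0 < η ∧ ∀ l : ℕ, ∃ D : ℕ, ∀ᶠ N : ℕ in atTop,
      ∃ (Θ : Finset ℝ) (τ : ℝ), Θ.card ≤ d ∧ ρ ≤ τ ∧ τ ≤ 1 ∧ δ * H ≤ (bohrSet Θ τ H).card ∧
      (((bohrSet Θ τ H).filter (fun b => ¬ ∀ j : ℕ, 1 ≤ j → j ≤ s →
        κ * (H : ℝ) ^ k ≤ extensions A B C f r η l D N k H (j * |b|))).card : ℝ) ≤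
        ε * (bohrSet Θ τ H).card := by
  obtain ⟨K, hK⟩ := Pool.Agent.N688.QB.hit A B C hA hΔ f hf hadm k
  obtain ⟨d, H₀, ρ, δ, κ, hρ, hδ, hκ, hmain⟩ := Pool.Agent.N688.FB.main k s K ε hε
  refine ⟨d, H₀, ρ, δ, κ, hρ, hδ, hκ, fun H hH => ?_⟩
  obtain ⟨r, η, hη, hl⟩ := hK H
  refine ⟨r, η, hη, fun l => ?_⟩
  obtain ⟨D, hD⟩ := hl l
  refine ⟨D, ?_⟩
  filter_upwards [hD] with N hN
  obtain ⟨Θ, τ, h1, h2, h3, h4, h5⟩ := hmain H hH
    (fun x => StrictMono x ∧ Pool.Agent.N688.QB.Runs A B C f r η l D N (fun i => x i - x 0))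
    (by
      rintro x v ⟨g1, g2⟩
      refine ⟨fun i j hij => ?_, ?_⟩
      · have := g1 hij
        simpa using this
      · have e : (fun i => x i + v - (x 0 + v)) = fun i => x i - x 0 := by
          funext i
          ring
        rw [e]
        exact g2)
    (by
      intro F hF hFK
      obtain ⟨x, g1, g2, g3⟩ := hN F hF hFK
      exact ⟨x, g1.injective, g2, g1 (by
        rw [Fin.lt_def]
        simp), g1, g3⟩)
  refine ⟨Θ, τ, h1, h2, h3, h4, le_trans (le_of_eq ?_) h5⟩
  congr 2
  apply filter_congr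
  intro b _
  have key : ∀ b' : ℤ, extensions A B C f r η l D N k H b' =
      Pool.Agent.N688.FB.ext k H (fun x => StrictMono x ∧
      Pool.Agent.N688.QB.Runs A B C f r η l D N (fun i => x i - x 0)) b' := by
    intro b'
    unfold extensions
    refine ext_congr k H _ _ b' (fun g => ?_)
    have e : (fun i => (Fin.cons 0 (Fin.cons b' g) : Fin (k + 2) → ℤ) i -
        (Fin.cons 0 (Fin.cons b' g) : Fin (k + 2) → ℤ) 0) = Fin.cons 0 (Fin.cons b' g) := by
      funext i
      rw [Fin.cons_zero, sub_zero]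
    show _ ↔ StrictMono (Fin.cons 0 (Fin.cons b' g) : Fin (k + 2) → ℤ) ∧
      Pool.Agent.N688.QB.Runs A B C f r η l D N (fun i =>
        (Fin.cons 0 (Fin.cons b' g) : Fin (k + 2) → ℤ) i -
        (Fin.cons 0 (Fin.cons b' g) : Fin (k + 2) → ℤ) 0)
    rw [e]
    exact Iff.rfl
  simp only [key]

end Pool.Agent.Results.MP_7169d5_nt.DistancesInBohrSets
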