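import Mathlib
import Pool.Agent.N912.EL.Fin
import Pool.Agent.N912.EL.Stm3
import Pool.Agent.N265.ELlab
import Pool.Agent.N866.ELapk
import Pool.Agent.N400.EL.LGK
import Pool.Agent.N644.EL.Farg
import Pool.Agent.N711.EL16

/-!
A two-factor form of Elliott's conjecture for `n + i` in the Gaussian integers, hence for `n^2 + 1`:
arbitrary completely additive functions `H₁`, `H₂` of the Gaussian integers with values in a finite
abelian group (arbitrary values at the Gaussian primes). Unless a character of the group makes both of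
them close to characters of the residue classes, `H₁(α) + H₂(β)` is equidistributed over the
factorisations `n + i = α β`.

The proof: the two-factor method (entropy decrement on Farey trees, `Pool.Agent.W78.EG`) with a new
bilinear estimate for primes with arbitrary coefficients (`Pool/Agent/N912/EL`), and Halász's theorem
for arbitrary completely multiplicative functions of the Gaussian integers in residue classes.
-/

set_option autoImplicit false

namespace Pool.Agent.Results.MP_7169d5_nt.GaussianElliott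

open Finset Filter

/-- `H` is a completely additive function of the non-zero Gaussian integers which vanishes at the units;
its values at the Gaussian primes (up to associates) are arbitrary -/
structure Additive {A : Type} [AddCommGroup A] (H : GaussianInt → A) : Prop where
  mul : ∀ z w : GaussianInt, z ≠ 0 → w ≠ 0 → H (z * w) = H z + H w
  unit : ∀ u : GaussianInt, IsUnit u → H u = 0

/-- `φ` is a character of the residue classes coprime to `M` of the Gaussian integers, trivial on the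
units, extended by `0` -/
structure IsChar (M : ℕ) (φ : GaussianInt → ℂ) : Prop where
  per : ∀ z w : GaussianInt, (M : GaussianInt) ∣ z - w → φ z = φ w
  mul : ∀ z w : GaussianInt, φ (z * w) = φ z * φ w
  one : φ 1 = 1
  unit : ∀ u : GaussianInt, IsUnit u → φ u = 1
  ne : ∀ z : GaussianInt, φ z ≠ 0 ↔ IsCoprime z (M : GaussianInt)

open scoped Classical in
/-- `F` is far from all characters: for each `M` and each character `φ` modulo `M`, the sum of
`1 / norm π` over the Gaussian primes `π` with `F(π) ≠ φ(π)` is infinite -/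
def Far (F : GaussianInt → ℂ) : Prop := ∀ (M : ℕ) (φ : GaussianInt → ℂ), 1 ≤ M → IsChar M φ →
  ¬ Summable (fun π : GaussianInt => if Prime π ∧ F π ≠ φ π then 1 / (π.norm : ℝ) else 0)

open scoped Classical in
/-- the same for a function of the positive integers and the Dirichlet characters, on the primes
`p ≡ 1 mod 4` -/
def FarZ (f : ℕ → ℂ) : Prop := ∀ M : ℕ, 1 ≤ M → ∀ χ : DirichletCharacter ℂ M,
  ¬ Summable (fun p : ℕ => if p.Prime ∧ p % 4 = 1 ∧ f p ≠ χ (p : ZMod M) then 1 / (p : ℝ) else 0)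

/-- the pairs `(α, β)` of Gaussian integers with `α β = n + i` for some `n ≥ 1`, `n ≡ u mod q`, with
`norm α ≡ r mod q`, `s₁ X < norm α ≤ s₂ X`, `s₃ X < norm β ≤ s₄ X` -/
def Pairs (q u r : ℕ) (s₁ s₂ s₃ s₄ : ℝ) (X : ℕ) : Set (GaussianInt × GaussianInt) :=
  {p | (∃ n : ℕ, 1 ≤ n ∧ n ≡ u [MOD q] ∧ p.1 * p.2 = ⟨n, 1⟩) ∧ p.1.norm ≡ r [ZMOD q] ∧
    s₁ * X < (p.1.norm : ℝ) ∧ (p.1.norm : ℝ) ≤ s₂ * X ∧ s₃ * X < (p.2.norm : ℝ) ∧
    (p.2.norm : ℝ) ≤ s₄ * X}

/-- the difference between the number of the pairs `(α, β)` in `P` with `H₁(α) + H₂(β) = g` and the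
number expected if `H₁(α) + H₂(β)` is equidistributed in `A` -/
noncomputable def Dev {A : Type} [AddCommGroup A] (H₁ H₂ : GaussianInt → A) (g : A)
    (P : Set (GaussianInt × GaussianInt)) : ℝ :=
  |({p ∈ P | H₁ p.1 + H₂ p.2 = g}.ncard : ℝ) - 1 / (Nat.card A : ℝ) * (P.ncard : ℝ)|

open scoped Classical in
/-- the number of the integers `1 ≤ n ≤ X`, `n ≡ u mod q`, for which `n^2 + 1` is squarefree and
`n + i = α β` with `norm α, norm β ≤ X` and `H₁(α) + H₂(β) = g` -/
noncomputable def count₂ {A : Type} [AddCommGroup A] (q u : ℕ) (H₁ H₂ : GaussianInt → A) (g : A)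
    (X : ℕ) : ℕ :=
  ((Icc 1 X).filter (fun n : ℕ => n ≡ u [MOD q] ∧ Squarefree (n ^ 2 + 1) ∧
    ∃ α β : GaussianInt, α.norm ≤ X ∧ β.norm ≤ X ∧ α * β = ⟨n, 1⟩ ∧ H₁ α + H₂ β = g)).card

open scoped Classical in
/-- the number of the integers `1 ≤ n ≤ X`, `n ≡ u mod q`, for which `n^2 + 1` is squarefree and
`H(n + i) = g` -/
noncomputable def count {A : Type} [AddCommGroup A] (q u : ℕ) (H : GaussianInt → A) (g : A)
    (X : ℕ) : ℕ :=
  ((Icc 1 X).filter (fun n : ℕ => n ≡ u [MOD q] ∧ Squarefree (n ^ 2 + 1) ∧ H ⟨n, 1⟩ = g)).card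

open scoped Classical in
/-- the set of the positive integers `X` with `P X` has logarithmic density `0` -/
def LogNull (P : ℕ → Prop) : Prop :=
  Tendsto (fun Z : ℕ => (∑ X ∈ (Icc 1 Z).filter P, 1 / (X : ℝ)) / Real.log Z) atTop (nhds 0)

/-- `C X` is at least `X / (log X)^(log 2 + ε)` for almost all `X`, for each `ε > 0`, and at least
`X^(1 - δ)` for all large `X`, for each `δ > 0` -/
def Many (C : ℕ → ℕ) : Prop :=
  (∀ ε : ℝ, 0 < ε → LogNull (fun X => (C X : ℝ) < X / Real.log X ^ (Real.log 2 + ε))) ∧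
  ∀ δ : ℝ, 0 < δ → ∃ X₀ : ℕ, ∀ X : ℕ, X₀ ≤ X → (X : ℝ) ^ (1 - δ) ≤ C X

section

variable {A : Type} [AddCommGroup A]

theorem logNull_mono {P Q : ℕ → Prop} (h : ∀ X, Q X → P X) (hP : LogNull P) : LogNull Q := by
  classical
  unfold LogNull at *
  refine squeeze_zero (fun Z => div_nonneg (sum_nonneg fun X _ => by positivity)
    (Real.log_natCast_nonneg Z)) (fun Z => ?_) hP
  refine div_le_div_of_nonneg_right ?_ (Real.log_natCast_nonneg Z)
  refine sum_le_sum_of_subset_of_nonneg ?_ fun _ _ _ => by positivity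
  intro X hX
  rw [mem_filter] at hX ⊢
  exact ⟨hX.1, h X hX.2⟩

theorem many_mono {C D : ℕ → ℕ} (h : ∀ X, C X ≤ D X) (hC : Many C) : Many D := by
  refine ⟨fun ε hε => logNull_mono (fun X hX => lt_of_le_of_lt ?_ hX) (hC.1 ε hε),
    fun δ hδ => ?_⟩
  · exact_mod_cast h X
  · obtain ⟨X₀, hX₀⟩ := hC.2 δ hδ
    exact ⟨X₀, fun X hX => (hX₀ X hX).trans (by exact_mod_cast h X)⟩

theorem count_ge {H : GaussianInt → A} (hH : Additive H) (q u : ℕ) (g : A) (X : ℕ) :
    count₂ q u H H g X ≤ count q u H g X := by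
  classical
  unfold count₂ count
  refine card_le_card fun n hn => ?_
  rw [mem_filter] at hn ⊢
  obtain ⟨h1, h2, h3, α, β, _, _, h4, h5⟩ := hn
  have hne : (⟨n, 1⟩ : GaussianInt) ≠ 0 := by
    intro h
    have := congrArg Zsqrtd.im h
    simp at this
  refine ⟨h1, h2, h3, ?_⟩
  rw [← h4, hH.mul, h5]
  · rintro rfl
    rw [zero_mul] at h4
    exact hne h4.symm
  · rintro rfl
    rw [mul_zero] at h4
    exact hne h4.symm

theorem dev_lt {H₁ H₂ : GaussianInt → A} {g : A} {P : Set (GaussianInt × GaussianInt)} {c : ℝ}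
    (hc : 0 < c) {a b k : ℕ} (hk : k = Nat.card A)
    (ha : ({p ∈ P | H₁ p.1 + H₂ p.2 = g}.ncard : ℝ) = c * a) (hb : (P.ncard : ℝ) = c * b)
    {ε x : ℝ} (h : ε * x < Dev H₁ H₂ g P) : ε / c * x < |(a : ℝ) - 1 / (k : ℝ) * b| := by
  unfold Dev at h
  rw [ha, hb, ← hk, show c * (a : ℝ) - 1 / (k : ℝ) * (c * (b : ℝ)) =
    c * ((a : ℝ) - 1 / (k : ℝ) * b) by ring, abs_mul, abs_of_pos hc] at h
  rw [div_mul_eq_mul_div, div_lt_iff₀ hc, mul_comm _ c]
  exact h

theorem far_iff {F : GaussianInt → ℂ} : Far F ↔ Pool.Agent.N912.EL.FarG F := by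
  unfold Far Pool.Agent.N912.EL.FarG
  constructor
  · intro h M φ hM hφ
    exact h M φ hM ⟨hφ.per, hφ.mul, hφ.one, hφ.unit, hφ.ne⟩
  · intro h M φ hM hφ
    exact h M φ hM ⟨hφ.per, hφ.mul, hφ.one, hφ.unit, hφ.ne⟩

end

/-- 1. Let `A` be a finite abelian group, and let `H₁, H₂` be completely additive functions of the
Gaussian integers with values in `A`, zero at the units, such that for every nontrivial character `ψ`
of `A` one of `ψ ∘ H₁`, `ψ ∘ H₂` is far from the characters of the residue classes. Let `g` be an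
element of `A`.

(a) In all windows and residue classes, for almost all `X`, the proportion of the pairs `(α, β)`
in `Pairs` with `H₁(α) + H₂(β) = g` is `1 / |A|`, up to `o(X)` pairs; the same holds for the pairs
with `norm (α β) = n^2 + 1` squarefree.

(b) If `u^2 + 1` is not divisible by the square of a prime whose square divides `q`, then for many
`n ≡ u mod q` the number `n^2 + 1` is squarefree and `n + i` has a factorisation `α β`,
`norm α, norm β ≤ X`, with `H₁(α) + H₂(β) = g`; and if `H₁ = H₂ = H`, then for many `n ≡ u mod q` the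
number `n^2 + 1` is squarefree and `H(n + i) = g`.

2. For functions of the norm whose values are roots of unity it is enough that they are far from the
Dirichlet characters on the primes `p ≡ 1 mod 4`. -/
theorem result :
    (∀ (A : Type) [AddCommGroup A] [Finite A] (H₁ H₂ : GaussianInt → A), Additive H₁ →
      Additive H₂ →
      (∀ ψ : AddChar A ℂ, ψ ≠ 1 → Far (fun z => ψ (H₁ z)) ∨ Far (fun z => ψ (H₂ z))) →
      ∀ (q u : ℕ), 1 ≤ q → ∀ g : A,
      (∀ (r : ℕ) (s₁ s₂ s₃ s₄ : ℝ), 0 ≤ s₁ → s₁ < s₂ → 0 ≤ s₃ → s₃ < s₄ → ∀ ε : ℝ, 0 < ε →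
        LogNull (fun X : ℕ => ε * X < Dev H₁ H₂ g (Pairs q u r s₁ s₂ s₃ s₄ X)) ∧
        LogNull (fun X : ℕ => ε * X < Dev H₁ H₂ g {p ∈ Pairs q u r s₁ s₂ s₃ s₄ X |
          Squarefree (p.1 * p.2).norm.natAbs})) ∧
      ((∀ l : ℕ, l.Prime → l ^ 2 ∣ q → ¬ l ^ 2 ∣ u ^ 2 + 1) →
        Many (count₂ q u H₁ H₂ g) ∧ (H₁ = H₂ → Many (count q u H₁ g)))) ∧
    (∀ (N : ℕ) (f : ℕ → ℂ), 1 ≤ N → (∀ n, f n ^ N = 1) → FarZ f →
      Far (fun z => f z.norm.natAbs)) := by
  classical
  obtain ⟨f, χ, hF'⟩ := Pool.Agent.W251.EG.fd4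
  have hF : Pool.Agent.W78.EG.Fd (((0 : ℕ) : ℤ)) (((1 : ℕ) : ℤ)) f χ := by exact_mod_cast hF'
  have hS := Pool.Agent.W251.EG.sps9 0 1 (by simp)
  have hD := Pool.Agent.W251.EG.hDG hF'
  have hst : Pool.Agent.N912.EL.S_STAR 0 1 := Pool.Agent.N265.EL.star_apd hD
  have hlab : Pool.Agent.N912.EL.S_LAB 0 1 :=
    Pool.Agent.N265.EL.lab (Pool.Agent.N265.EL.unq hF')
  have hap : Pool.Agent.N912.EL.S_APK 0 1 := Pool.Agent.N866.EL.apk hF'
    (Pool.Agent.N400.EL.lgk hD (Pool.Agent.W290.EG.pid hF'))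
  have hfg : Pool.Agent.N912.EL.S_FARG := Pool.Agent.N644.EL.farg
  have hcorr : Pool.Agent.W78.EG.S_CORR 0 1 := Pool.Agent.W251.EG.corrG hF'
  have hw : Pool.Agent.N912.EL.S_TWL (((0 : ℕ) : ℤ)) (((1 : ℕ) : ℤ)) :=
    Pool.Agent.N912.EL.twLG hF hst
  have hs : Pool.Agent.N912.EL.S_TSL (((0 : ℕ) : ℤ)) (((1 : ℕ) : ℤ)) :=
    Pool.Agent.N912.EL.tsLG hF hst
  have huc : (0 : ℝ) < Pool.Agent.W78.EG.uc 0 1 := by
    exact_mod_cast Pool.Agent.W334.EG.uc_pos hD
  refine ⟨?_, ?_⟩
  swap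
  · intro N f hN hf hfar
    rw [far_iff]
    exact Pool.Agent.N711.EL16.farn N f hN hf hfar
  intro A _ _ H₁ H₂ h₁ h₂ hfar q u hq g
  obtain ⟨Φ, hgl⟩ := Pool.Agent.N912.EL.glb_of hlab hst hap hfg
    (H₁ := H₁) (H₂ := H₂) ⟨h₁.mul, h₁.unit⟩ ⟨h₂.mul, h₂.unit⟩
    (fun ψ hψ => (hfar ψ hψ).imp far_iff.1 far_iff.1)
  have hal : ∀ q u : ℕ, Pool.Agent.N912.EL.AdL 0 1 q u (⊤ : AddSubgroup A) Φ g :=
    fun _ _ _ _ _ _ _ => trivial
  have hcard : Nat.card (⊤ : AddSubgroup A) = Nat.card A := AddSubgroup.card_top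
  refine ⟨?_, ?_⟩
  · intro r s₁ s₂ s₃ s₄ g1 g2 g3 g4 ε hε
    constructor
    · have h := Pool.Agent.N912.EL.outGLx hF hw hs hgl g q u r hq (hal q u) s₁ s₂ s₃ s₄ g1 g2 g3 g4
        (ε / Pool.Agent.W78.EG.uc 0 1) (by positivity)
      refine logNull_mono (fun X hX => ?_) h
      obtain ⟨e1, e2⟩ := Pool.Agent.N912.EL.dev_pg hcorr hgl.lab (q := q) (u := u) (r := r)
        (s₁ := s₁) (s₂ := s₂) (s₃ := s₃) (s₄ := s₄) (X := X) g1 g3 (fun _ => True) g
      rw [filter_true_of_mem (fun _ _ => trivial)] at e1 e2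
      refine dev_lt huc hcard ?_ ?_ hX
      · rw [← e1]
        congr 2
        ext p
        exact ⟨fun h => ⟨h.1, trivial, h.2⟩, fun h => ⟨h.1, h.2.2⟩⟩
      · rw [← e2]
        congr 2
        ext p
        exact ⟨fun h => ⟨h, trivial⟩, fun h => h.1⟩
    · have h := Pool.Agent.N912.EL.outGLsq hF hw hs hgl g q u r hq (hal q u) s₁ s₂ s₃ s₄ g1 g2 g3
        g4 (ε / Pool.Agent.W78.EG.uc 0 1) (by positivity)
      refine logNull_mono (fun X hX => ?_) h
      obtain ⟨e1, e2⟩ := Pool.Agent.N912.EL.dev_pg hcorr hgl.lab (q := q) (u := u) (r := r)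
        (s₁ := s₁) (s₂ := s₂) (s₃ := s₃) (s₄ := s₄) (X := X) g1 g3 (fun n => Squarefree n) g
      refine dev_lt huc hcard ?_ ?_ hX
      · rw [← e1]
        congr 2
        ext p
        constructor
        · intro h
          refine ⟨h.1.1, ?_, h.2⟩
          have := h.1.2
          rwa [Zsqrtd.norm_mul] at this
        · intro h
          refine ⟨⟨h.1, ?_⟩, h.2.2⟩
          rw [Zsqrtd.norm_mul]
          exact h.2.1
      · rw [← e2]
        congr 2
        ext p
        constructor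
        · intro h
          refine ⟨h.1, ?_⟩
          have := h.2
          rwa [Zsqrtd.norm_mul] at this
        · intro h
          refine ⟨h.1, ?_⟩
          rw [Zsqrtd.norm_mul]
          exact h.2
  · intro hu
    have hqa : ∀ l : ℕ, l.Prime → l ^ 2 ∣ q → ¬ l ^ 2 ∣ u ^ 2 + 0 * u + 1 := by
      intro l hl hlq
      rw [zero_mul, add_zero]
      exact hu l hl hlq
    have hle : ∀ X, Pool.Agent.N912.EL.cL 0 1 q u Φ g X ≤ count₂ q u H₁ H₂ g X := by
      intro X
      unfold count₂ Pool.Agent.N912.EL.cL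
      refine card_le_card fun n hn => ?_
      rw [mem_filter, mem_range] at hn
      obtain ⟨a1, a2, a3, a4, d, e, a5, a6, a7, a8⟩ := hn
      rw [zero_mul, add_zero] at a4 a7
      rw [add_zero] at a2
      obtain ⟨v, w, b1, b2, b3, b4, b5⟩ := Pool.Agent.N912.EL.ex_fac hcorr a2 a7
      rw [mem_filter, mem_Icc]
      refine ⟨⟨a2, by omega⟩, a3, a4, star (Pool.Agent.N912.EL.tg v), Pool.Agent.N912.EL.tg w,
        ?_, ?_, b5, ?_⟩
      · rw [← Pool.Agent.N912.EL.tg_star, Pool.Agent.N912.EL.tg_norm,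
          Pool.Agent.N912.EL.nm_star', b1]
        exact_mod_cast a5
      · rw [Pool.Agent.N912.EL.tg_norm, b2]
        exact_mod_cast a6
      · have := hgl.lab v w b3 b4
        rw [b1, b2, a8] at this
        exact this.symm
    have hmany : Many (count₂ q u H₁ H₂ g) := by
      refine many_mono hle ⟨fun ε hε => ?_, fun δ hδ => ?_⟩
      · exact Pool.Agent.N912.EL.outL hF hS hw hs hgl g q u hq (hal q u) hqa ε hε
      · exact Pool.Agent.N912.EL.outLAll hF hS hw hs hgl g q u hq (hal q u) hqa δ hδ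
    refine ⟨hmany, ?_⟩
    rintro rfl
    exact many_mono (count_ge h₁ q u g) hmany

end Pool.Agent.Results.MP_7169d5_nt.GaussianElliott
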