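import Pool.Agent.N728.QU.AllG

set_option autoImplicit false

/-!
# Primes in the thin families `f(X) + c - f(h)`, all quadratic polynomials `f`, uniformly in `c`

Let `f = a X² + b X` with integers `a ≠ 0` and `b`. For every integer `c` with few small prime factors, `|c| ≤ K H²`,
for which no prime divides all the numbers `f(m) + c - f(h)`, and for all but at most `ε H` of the `h ≤ H`, the number of
the `m ≤ M` for which `f(m) + c - f(h)` is a prime is the number predicted by Hardy and Littlewood, for all `M ≤ K H`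
simultaneously. For `f = X²` these are the primes `m² + k` for almost all `k` in the thin sets `c - h²`; for `c = 1` the
polynomials `X² + 1 - h²`. For `a < 0` (for example `f = - X²`) they are the representations of the numbers `c + |a| h²`
as `p + |a| m²`.

Proof (`Agent/N728/QU`): for `a > 0`, `f(m) - f(h) + c = u v + c` with `u = m - h`, `v = a (m + h) + b = a u + b'`,
`b' = 2 a h + b` (and `c - u v` with `u = h - m`, `v = - a u + b'` for `m < h`). Bilinear sums over `c ± u v` with an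
arbitrary bounded function of `v ∓ a u` do not change if a divisor of `u v`, composed of primes of a suitable range, is
moved from `u` to `v`; by the multiplication table phenomenon of Erdős few multiplicative windows contain such a divisor,
and the off-diagonal terms are bounded by two applications of the Cauchy-Schwarz inequality and the fundamental lemma of
the sieve (functions with mean zero on the cells (residue class and block)). For the functions constant on the cells the
range is shifted, by moving divisors again, to `u ≤ v / (log v)^C`, where the theorem of Bombieri and Vinogradov at the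
sharp level applies. All this is uniform in `c`.
-/

namespace Pool.Agent.Results.MP_7169d5_nt.ThinFamiliesAllQuadratics

open Finset

/-- `c` has few small prime factors beyond `s₀`: `∑_{p ∣ c, p > s} 1/p ≤ 1/√s` for all `s ≥ s₀`. -/
def Tame (s₀ : ℕ) (c : ℤ) : Prop :=
  c ≠ 0 ∧ ∀ s : ℕ, s₀ ≤ s → ∑ p ∈ c.natAbs.primeFactors.filter (fun p => s < p), 1 / (p : ℝ) ≤ 1 / √(s : ℝ)

/-- Every fixed `c ≠ 0`, for example `c = 1`, satisfies the condition with `s₀ = |c|`. -/
theorem tame_natAbs (c : ℤ) (h : c ≠ 0) : Tame c.natAbs c := by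
  refine ⟨h, fun s hs => ?_⟩
  have h1 : c.natAbs.primeFactors.filter (fun p => s < p) = ∅ := by
    rw [filter_eq_empty_iff]
    intro p hp hsp
    have := Nat.le_of_mem_primeFactors hp
    omega
  rw [h1, sum_empty]
  positivity

/-- The polynomial `f(X) = a X² + b X`. -/
def f (a b n : ℤ) : ℤ := a * n ^ 2 + b * n

/-- No prime divides all the numbers `f(m) - f(h) + c`: `gcd(a, b, c) = 1`, and `c` is odd if `a + b` is even. -/
def Unobstructed (a b c : ℤ) : Prop :=
  (∀ p : ℕ, p.Prime → (p : ℤ) ∣ a → (p : ℤ) ∣ b → ¬ (p : ℤ) ∣ c) ∧ (Even (a + b) → Odd c)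

/-- The number of the `1 ≤ m ≤ M` with `f(m) + k` a (positive) prime. -/
def primeCount (a b k : ℤ) (M : ℕ) : ℕ := ((Icc 1 M).filter (fun m : ℕ => (f a b m + k).toNat.Prime)).card

/-- The sum of `1 / log (f(m) + k)` over the `1 ≤ m ≤ M` with `f(m) + k ≥ 2`. -/
noncomputable def logSum (a b k : ℤ) (M : ℕ) : ℝ :=
  ∑ m ∈ (Icc 1 M).filter (fun m : ℕ => 2 ≤ f a b m + k), 1 / Real.log ((f a b m + k : ℤ) : ℝ)

/-- The number of the solutions of `f(m) + k ≡ 0` modulo `p`. -/
def omega (a b k : ℤ) (p : ℕ) : ℕ := ((range p).filter (fun m : ℕ => (p : ℤ) ∣ f a b m + k)).card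

/-- The product of Hardy and Littlewood for `f(X) + k`, over the primes `p ≤ Z`. -/
noncomputable def series (a b k : ℤ) (Z : ℕ) : ℝ :=
  ∏ p ∈ (Ioc 0 Z).filter Nat.Prime, (1 - (omega a b k p : ℝ) / p) / (1 - 1 / (p : ℝ))

/-- The conclusion for one `k`: the product is at least `κ`, and the number of primes `f(m) + k`, `m ≤ M`, is the
expected one up to `δ H / log H`, for all `M ≤ K H`. -/
def Good (a b : ℤ) (κ δ : ℝ) (K H Z : ℕ) (k : ℤ) : Prop :=
  κ ≤ series a b k Z ∧
    ∀ M : ℕ, M ≤ K * H → |(primeCount a b k M : ℝ) - series a b k Z * logSum a b k M| ≤ δ * (H / Real.log H)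

open Classical in
/-- The number of the `1 ≤ h ≤ H` for which the conclusion fails for `k = c - f(h)`. -/
noncomputable def exceptions (a b : ℤ) (κ δ : ℝ) (c : ℤ) (K H Z : ℕ) : ℕ :=
  ((Icc 1 H).filter (fun h : ℕ => ¬ Good a b κ δ K H Z (c - f a b h))).card

lemma Vg_pos (a b c : ℤ) (h m : ℕ) : Pool.Agent.N728.QU.Vg a b 1 c h m = f a b m + (c - f a b h) := by
  unfold Pool.Agent.N728.QU.Vg f
  ring

lemma Vg_neg (a b c : ℤ) (h m : ℕ) : Pool.Agent.N728.QU.Vg (-a) (-b) (-1) c h m = f a b m + (c - f a b h) := by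
  unfold Pool.Agent.N728.QU.Vg f
  ring

lemma adg_pos {a b c : ℤ} (h : Unobstructed a b c) : Pool.Agent.N728.QU.Adg a b c := by
  refine ⟨h.1, fun h2 h3 => ?_⟩
  have h4 := h.2 (even_iff_two_dvd.2 h2)
  exact (Int.not_even_iff_odd.2 h4) (even_iff_two_dvd.2 h3)

lemma adg_neg {a b c : ℤ} (h : Unobstructed a b c) : Pool.Agent.N728.QU.Adg (-a) (-b) c := by
  refine ⟨fun p hp h1 h2 => h.1 p hp ((dvd_neg).1 h1) ((dvd_neg).1 h2), fun h2 h3 => ?_⟩
  have h5 : (2 : ℤ) ∣ a + b := by
    have : -a + -b = -(a + b) := by ring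
    rw [this] at h2
    exact (dvd_neg).1 h2
  have h4 := h.2 (even_iff_two_dvd.2 h5)
  exact (Int.not_even_iff_odd.2 h4) (even_iff_two_dvd.2 h3)

/-- **Theorem.** -/
theorem result (a b : ℤ) (ha : a ≠ 0) (s₀ : ℕ) :
    ∀ ε : ℝ, 0 < ε → ∃ κ : ℝ, 0 < κ ∧ ∀ (δ : ℝ) (K : ℕ), 0 < δ → ∃ Z₀ : ℕ, ∀ A : ℕ, ∃ H₀ : ℕ, ∀ H : ℕ, H₀ ≤ H →
      ∀ (c : ℤ) (Z : ℕ), Tame s₀ c → Unobstructed a b c → c.natAbs ≤ K * H ^ 2 → Z₀ ≤ Z → (Z : ℝ) ≤ Real.log H ^ A →
      (exceptions a b κ δ c K H Z : ℝ) ≤ ε * H := by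
  classical
  intro ε hε
  rcases lt_or_gt_of_ne ha with hneg | hpos
  · obtain ⟨κ, hκ, h1⟩ := Pool.Agent.N728.QU.finalGU (-a) (-b) (by omega) s₀ ε hε
    refine ⟨κ, hκ, fun δ K hδ => ?_⟩
    obtain ⟨Z₀, h2⟩ := h1 δ K hδ
    refine ⟨Z₀, fun A => ?_⟩
    obtain ⟨H₀, h3⟩ := h2 A
    refine ⟨H₀, fun H hH c Z hc hu hcK hZ1 hZ2 => ?_⟩
    have h4 := h3 H hH Z c (-1) hc (adg_neg hu) (Or.inr rfl) hcK hZ1 hZ2
    refine le_trans (le_of_eq ?_) h4
    unfold exceptions
    congr 2
    apply filter_congr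
    intro h hh
    unfold Good primeCount logSum series omega Pool.Agent.N728.QU.cntg Pool.Agent.N728.QU.Sqg
    simp only [Vg_neg]
  · obtain ⟨κ, hκ, h1⟩ := Pool.Agent.N728.QU.finalGU a b (by omega) s₀ ε hε
    refine ⟨κ, hκ, fun δ K hδ => ?_⟩
    obtain ⟨Z₀, h2⟩ := h1 δ K hδ
    refine ⟨Z₀, fun A => ?_⟩
    obtain ⟨H₀, h3⟩ := h2 A
    refine ⟨H₀, fun H hH c Z hc hu hcK hZ1 hZ2 => ?_⟩
    have h4 := h3 H hH Z c 1 hc (adg_pos hu) (Or.inl rfl) hcK hZ1 hZ2
    refine le_trans (le_of_eq ?_) h4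
    unfold exceptions
    congr 2
    apply filter_congr
    intro h hh
    unfold Good primeCount logSum series omega Pool.Agent.N728.QU.cntg Pool.Agent.N728.QU.Sqg
    simp only [Vg_pos]

end Pool.Agent.Results.MP_7169d5_nt.ThinFamiliesAllQuadratics
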